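import Mathlib
import Pool.Agent.Helper28.MT.Goals

/-!
# Project MT (MP_bb782b_co), packet STEP: one step of the selection
-/

set_option autoImplicit false

namespace Pool.Agent.Helper10.MT

open Finset
open Pool.Agent.Helper55.Rota
open Pool.Agent.Helper28.MT

/-- the thresholds -/
def cc (l : ℕ) : ℕ := if l = 0 then 0 else 2 ^ (l - 1)

/-- the weights -/
def ww (l : ℕ) : ℕ := cc (l + 1) - cc l

lemma cc_succ (l : ℕ) : cc (l + 1) = 2 ^ l := by simp [cc]

lemma cc_add_ww (l : ℕ) : cc l + ww l = cc (l + 1) := by
  have h : cc l ≤ cc (l + 1) := by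
    rw [cc_succ]
    unfold cc
    split_ifs with h
    · exact Nat.zero_le _
    · exact Nat.pow_le_pow_right (by norm_num) (by omega)
  unfold ww
  omega

lemma ww_mul_le {s l : ℕ} (hl : l < s) : ww l * 2 ^ (s - l) ≤ 2 ^ s := by
  have h1 : ww l ≤ 2 ^ l := by
    have := cc_add_ww l
    rw [cc_succ] at this
    omega
  calc ww l * 2 ^ (s - l) ≤ 2 ^ l * 2 ^ (s - l) := Nat.mul_le_mul_right _ h1
    _ = 2 ^ s := by rw [← pow_add]; congr 1; omega

lemma min_le_sum (s d : ℕ) : min d (cc s) ≤ ∑ l ∈ range s, (if cc l < d then ww l else 0) := by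
  induction s with
  | zero => simp [cc]
  | succ s ih =>
    rw [sum_range_succ]
    have h := cc_add_ww s
    split_ifs with h1
    · omega
    · omega

theorem mt_step : G_K → G_U → G_LOSS → G_STEP := by
  intro hK hU hLOSS α _ _ R n k h s b f T j hk hs hj hW hR hloop hLab hGood
  obtain ⟨hL1, hL2, hL3⟩ := hLOSS α R n k h s b f T j hs hj hW hGood
  obtain ⟨hLa, hLb⟩ := hLab
  set used := (range j).biUnion T with hused
  set S := allowed s f j \ used with hS
  -- the hypothesis of `G_K`
  have hcond : ∀ (I : Finset (Fin n)) (F : Finset α), Closed R F → R.r F < I.card →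
      k * (I.card - R.r F) ≤ 8 * (S ∩ (blkU b I \ F)).card := by
    intro I F hF hlt
    have h1 := hLb I F hF hlt
    have h2 : top s f ∩ (blkU b I \ F) ⊆ (S ∩ (blkU b I \ F)) ∪ (used ∩ top s f) := by
      intro x hx
      rw [mem_inter] at hx
      rw [mem_union, mem_inter, mem_inter]
      by_cases hu : x ∈ used
      · exact Or.inr ⟨hu, hx.1⟩
      · refine Or.inl ⟨?_, hx.2⟩
        rw [hS, mem_sdiff]
        refine ⟨?_, hu⟩
        have hx1 := hx.1
        simp only [top, mem_filter, mem_univ, true_and] at hx1
        simp only [allowed, mem_filter, mem_univ, true_and]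
        exact Or.inl hx1
    have h3 := (card_le_card h2).trans (card_union_le _ _)
    have h4 : k * 1 ≤ k * (I.card - R.r F) := Nat.mul_le_mul_left k (by omega)
    omega
  obtain ⟨T0, y, v, hOpt, hcost⟩ := hK α R n k b S (cost s f) hR hloop hk hcond
  have hOpt' := hOpt
  obtain ⟨hT1, hT2, hT3, hT4, hT5, hT6, hT7⟩ := hOpt'
  -- the level sets are small
  have hsmall : ∀ l < s, (univ.filter (fun x => v x + cc l < y (b x))).card ≤
      2 ^ 28 * h * k * s * 2 ^ (s - l) := by
    intro l hl
    obtain ⟨e, g, heg⟩ := hU α R n b S (cost s f) T0 y v (cc l) hR hOpt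
    by_contra hcon
    rw [not_le, heg] at hcon
    have hg : j / 2 ^ l < 2 ^ (s - l) := by
      apply Nat.div_lt_of_lt_mul
      rw [← pow_add]
      have : l + (s - l) = s := by omega
      rw [this]; exact hj
    have h1 := hLa l hl (j / 2 ^ l) hg e g hcon.le
    rw [← heg] at h1
    have h2 : res s l (j / 2 ^ l) f ∩ univ.filter (fun x => v x + cc l < y (b x)) ⊆
        used ∩ res s l (j / 2 ^ l) f := by
      intro x hx
      rw [mem_inter] at hx
      rw [mem_inter]
      refine ⟨?_, hx.1⟩
      by_contra hu
      have hx1 := hx.1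
      have hx2 := hx.2
      simp only [res, mem_filter, mem_univ, true_and] at hx1
      simp only [mem_filter, mem_univ, true_and] at hx2
      obtain ⟨ha, hb, hc⟩ := hx1
      have hxS : x ∈ S := by
        rw [hS, mem_sdiff]
        refine ⟨?_, hu⟩
        simp only [allowed, mem_filter, mem_univ, true_and]
        right
        rw [hb]; exact hc
      have h3 := hT5 x hxS
      have h4 : cost s f x = cc l := by
        unfold cost cc
        rw [if_neg (by omega), hb]
      rw [h4] at h3
      omega
    have h3 := card_le_card h2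
    rcases Nat.eq_zero_or_pos l with h0 | h0
    · subst h0
      simp only [pow_zero, Nat.div_one] at h3 h1
      rw [hL3, card_empty] at h3
      omega
    · have h4 := hL2 l h0 hl (j / 2 ^ l)
      omega
  -- the cost of `T0`
  have hsum : ∑ x ∈ S, (y (b x) - v x) ≤ 2 ^ 28 * h * k * s ^ 2 * 2 ^ s := by
    have h1 : ∀ x ∈ S, (y (b x) - v x) ≤
        ∑ l ∈ range s, (if v x + cc l < y (b x) then ww l else 0) := by
      intro x hx
      have h2 := hT5 x hx
      have h3 : cost s f x ≤ cc s := by
        have hcs : cc s = 2 ^ (s - 1) := by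
          unfold cc; rw [if_neg (by omega)]
        rw [hcs]
        unfold cost
        split_ifs with h4 h5
        · exact le_rfl
        · exact Nat.zero_le _
        · have h6 : f x / 2 ^ s < s := by
            apply Nat.div_lt_of_lt_mul
            rw [not_le] at h4
            rw [mul_comm]; exact h4
          exact Nat.pow_le_pow_right (by norm_num) (by omega)
      have h4 := min_le_sum s (y (b x) - v x)
      rw [min_eq_left (by omega)] at h4
      refine h4.trans (le_of_eq ?_)
      apply sum_congr rfl
      intro l _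
      have h5 : cc l < y (b x) - v x ↔ v x + cc l < y (b x) := by omega
      simp only [h5]
    calc ∑ x ∈ S, (y (b x) - v x)
        ≤ ∑ x ∈ S, ∑ l ∈ range s, (if v x + cc l < y (b x) then ww l else 0) := sum_le_sum h1
      _ = ∑ l ∈ range s, ∑ x ∈ S, (if v x + cc l < y (b x) then ww l else 0) := sum_comm
      _ ≤ ∑ l ∈ range s, 2 ^ 28 * h * k * s * 2 ^ s := by
          apply sum_le_sum
          intro l hl
          rw [mem_range] at hl
          have h2 : ∑ x ∈ S, (if v x + cc l < y (b x) then ww l else 0) ≤
              ∑ x : α, (if v x + cc l < y (b x) then ww l else 0) :=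
            sum_le_sum_of_subset (subset_univ S)
          have h3 : ∑ x : α, (if v x + cc l < y (b x) then ww l else 0) =
              (univ.filter (fun x => v x + cc l < y (b x))).card * ww l := by
            rw [← sum_filter, sum_const, smul_eq_mul]
          rw [h3] at h2
          refine h2.trans ?_
          calc (univ.filter (fun x => v x + cc l < y (b x))).card * ww l
              ≤ (2 ^ 28 * h * k * s * 2 ^ (s - l)) * ww l :=
                Nat.mul_le_mul_right _ (hsmall l hl)
            _ = 2 ^ 28 * h * k * s * (ww l * 2 ^ (s - l)) := by ring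
            _ ≤ 2 ^ 28 * h * k * s * 2 ^ s := Nat.mul_le_mul_left _ (ww_mul_le hl)
      _ = 2 ^ 28 * h * k * s ^ 2 * 2 ^ s := by
          rw [sum_const, card_range, smul_eq_mul]; ring
  have hcostT : ∑ x ∈ T0, cost s f x ≤ 2 ^ 31 * h * s ^ 2 * 2 ^ s := by
    have h1 : k * ∑ x ∈ T0, cost s f x ≤ k * (2 ^ 31 * h * s ^ 2 * 2 ^ s) := by
      refine hcost.trans ?_
      calc 8 * ∑ x ∈ S, (y (b x) - v x) ≤ 8 * (2 ^ 28 * h * k * s ^ 2 * 2 ^ s) :=
            Nat.mul_le_mul_left _ hsum
        _ = k * (2 ^ 31 * h * s ^ 2 * 2 ^ s) := by ring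
    exact Nat.le_of_mul_le_mul_left h1 hk
  -- the new family
  have hdis : ∀ i < j, Disjoint T0 (T i) := by
    intro i hi
    rw [Finset.disjoint_left]
    intro x hx hx2
    have h1 := hT1 hx
    rw [hS, mem_sdiff] at h1
    apply h1.2
    rw [hused, mem_biUnion]
    exact ⟨i, mem_range.mpr hi, hx2⟩
  obtain ⟨hG1, hG2⟩ := hGood
  refine ⟨Function.update T j T0, ?_, ?_⟩
  · intro i hi
    by_cases hij : i = j
    · subst hij
      rw [Function.update_self]
      refine ⟨?_, hT2, hT3, hcostT⟩
      intro x hx
      have h1 := hT1 hx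
      rw [hS, mem_sdiff] at h1
      exact h1.1
    · rw [Function.update_of_ne hij]
      exact hG1 i (by omega)
  · intro i hi i' hi' hne
    by_cases hij : i = j
    · subst hij
      rw [Function.update_self, Function.update_of_ne (Ne.symm hne)]
      exact hdis i' (by omega)
    · rw [Function.update_of_ne hij]
      by_cases hij' : i' = j
      · subst hij'
        rw [Function.update_self]
        exact (hdis i (by omega)).symm
      · rw [Function.update_of_ne hij']
        exact hG2 i (by omega) i' (by omega) hne

end Pool.Agent.Helper10.MT
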